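import Mathlib

/-!
# Closed polygons through unit vectors surrounding the origin (MP_768819_an, Q1: proved)

Let `0 = ∑ λ_i p_i` with unit vectors `p_i`. Then `1 = ‖p_i‖ ≤ ∑_j λ_j ‖p_i - p_j‖`, so
`1 ≤ ∑_i ∑_j λ_i λ_j ‖p_i - p_j‖`. The norm `‖p_i - p_j‖` is at most the distance of the two vertices
in the circle of length `L`, and the circle metric is a mean of cut metrics (half circles), so
that the double sum is at most `L / 4`. (The idea of the cut decomposition is due to helper99.)
-/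

set_option autoImplicit false

open MeasureTheory Set

namespace Pool.Agent.Results.MP_768819_an.ClosedPolygon

/-- the sign function of the half line `t < y` -/
noncomputable def sg (y t : ℝ) : ℝ := if t < y then 1 else -1

theorem sg_mul (y z t : ℝ) :
    sg y t * sg z t = 1 - 2 * (Ico (min y z) (max y z)).indicator (fun _ => (1 : ℝ)) t := by
  unfold sg
  by_cases h1 : t < y <;> by_cases h2 : t < z
  · have : t ∉ Ico (min y z) (max y z) := fun h => by
      have := h.1
      rcases min_le_iff.1 this with h3 | h3 <;> linarith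
    simp [h1, h2, this]
  · have : t ∈ Ico (min y z) (max y z) :=
      ⟨min_le_of_right_le (not_lt.1 h2), lt_max_of_lt_left h1⟩
    simp only [h1, h2, if_true, if_false, indicator_of_mem this]
    norm_num
  · have : t ∈ Ico (min y z) (max y z) :=
      ⟨min_le_of_left_le (not_lt.1 h1), lt_max_of_lt_right h2⟩
    simp only [h1, h2, if_true, if_false, indicator_of_mem this]
    norm_num
  · have : t ∉ Ico (min y z) (max y z) := fun h => by
      have := h.2
      rcases lt_max_iff.1 this with h3 | h3 <;> contradiction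
    simp [h1, h2, this]

theorem integrable_sg_mul (y z h : ℝ) :
    IntegrableOn (fun t => sg y t * sg z t) (Ico 0 h) := by
  simp only [sg_mul]
  refine Integrable.sub ?_ (Integrable.const_mul ?_ 2)
  · exact integrable_const _
  · exact (integrable_const (1 : ℝ)).indicator measurableSet_Ico

theorem integral_sg_mul {y z h : ℝ} (hy : 0 ≤ y) (hyh : y ≤ h) (hz : 0 ≤ z) (hzh : z ≤ h) :
    ∫ t in Ico 0 h, sg y t * sg z t = h - 2 * |y - z| := by
  simp only [sg_mul]
  have hsub : Ico (min y z) (max y z) ⊆ Ico 0 h :=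
    Ico_subset_Ico (le_min hy hz) (max_le hyh hzh)
  have h0 : 0 ≤ h := hy.trans hyh
  rw [integral_sub (integrable_const _)
    (((integrable_const (1 : ℝ)).indicator measurableSet_Ico).const_mul 2), integral_const_mul,
    setIntegral_indicator measurableSet_Ico, inter_eq_self_of_subset_right hsub]
  simp only [setIntegral_const, smul_eq_mul, mul_one, Real.volume_real_Ico, sub_zero,
    max_eq_left h0]
  rw [max_eq_left (sub_nonneg.2 min_le_max), max_sub_min_eq_abs, abs_sub_comm]

/-- The kernel `h - 2 |y - z|` is positive semidefinite on `[0, h]`. -/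
theorem kernel_nonneg {ι : Type} [Fintype ι] (μ y : ι → ℝ) {h : ℝ} (h0 : ∀ i, 0 ≤ y i)
    (h1 : ∀ i, y i ≤ h) : 0 ≤ ∑ i, ∑ j, μ i * μ j * (h - 2 * |y i - y j|) := by
  have e1 : ∫ t in Ico 0 h, (∑ i, μ i * sg (y i) t) ^ 2 =
      ∑ i, ∑ j, μ i * μ j * (h - 2 * |y i - y j|) := by
    have e2 : ∀ t, (∑ i, μ i * sg (y i) t) ^ 2 =
        ∑ i, ∑ j, μ i * μ j * (sg (y i) t * sg (y j) t) := by
      intro t
      rw [sq, Finset.sum_mul_sum]
      exact Finset.sum_congr rfl fun i _ => Finset.sum_congr rfl fun j _ => by ring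
    simp only [e2]
    rw [integral_finsetSum _ fun i _ => integrable_finsetSum _ fun j _ =>
      (integrable_sg_mul (y i) (y j) h).const_mul _]
    refine Finset.sum_congr rfl fun i _ => ?_
    rw [integral_finsetSum _ fun j _ => (integrable_sg_mul (y i) (y j) h).const_mul _]
    refine Finset.sum_congr rfl fun j _ => ?_
    rw [integral_const_mul, integral_sg_mul (h0 i) (h1 i) (h0 j) (h1 j)]
  rw [← e1]
  exact integral_nonneg fun t => sq_nonneg _

section

variable {X : Type*} [NormedAddCommGroup X] [NormedSpace ℝ X]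

/-- the main inequality, for the positions `x i` on a circle of length `L` -/
theorem circle {r : ℕ} (q : Fin r → X) (w x : Fin r → ℝ) (L : ℝ) (hq : ∀ i, ‖q i‖ = 1)
    (hw : ∀ i, 0 ≤ w i) (hw1 : ∑ i, w i = 1) (hw0 : ∑ i, w i • q i = 0)
    (hx0 : ∀ i, 0 ≤ x i) (hxL : ∀ i, x i ≤ L)
    (hd : ∀ i j, ‖q i - q j‖ ≤ |x i - x j|) (hd' : ∀ i j, ‖q i - q j‖ ≤ L - |x i - x j|) :
    4 ≤ L := by
  have e1 : ∀ i, 1 ≤ ∑ j, w j * ‖q i - q j‖ := by
    intro i
    have : q i = ∑ j, w j • (q i - q j) := by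
      simp only [smul_sub, Finset.sum_sub_distrib, hw0, ← Finset.sum_smul, hw1, one_smul, sub_zero]
    calc 1 = ‖q i‖ := (hq i).symm
      _ = ‖∑ j, w j • (q i - q j)‖ := by rw [← this]
      _ ≤ ∑ j, ‖w j • (q i - q j)‖ := norm_sum_le _ _
      _ = ∑ j, w j * ‖q i - q j‖ := by
        refine Finset.sum_congr rfl fun j _ => ?_
        rw [norm_smul, Real.norm_eq_abs, abs_of_nonneg (hw j)]
  have e2 : 1 ≤ ∑ i, ∑ j, w i * w j * ‖q i - q j‖ := by
    calc 1 = ∑ i, w i * 1 := by simp [hw1]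
      _ ≤ ∑ i, w i * ∑ j, w j * ‖q i - q j‖ :=
        Finset.sum_le_sum fun i _ => mul_le_mul_of_nonneg_left (e1 i) (hw i)
      _ = ∑ i, ∑ j, w i * w j * ‖q i - q j‖ := by
        refine Finset.sum_congr rfl fun i _ => ?_
        rw [Finset.mul_sum]
        exact Finset.sum_congr rfl fun j _ => by ring
  -- the reduced positions and the signs
  let y : Fin r → ℝ := fun i => if x i < L / 2 then x i else x i - L / 2
  let ε : Fin r → ℝ := fun i => if x i < L / 2 then 1 else -1
  have hy0 : ∀ i, 0 ≤ y i := by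
    intro i
    simp only [y]
    split_ifs with h
    · exact hx0 i
    · linarith [not_lt.1 h]
  have hyh : ∀ i, y i ≤ L / 2 := by
    intro i
    simp only [y]
    split_ifs with h
    · exact h.le
    · linarith [hxL i]
  have hD : ∀ i j, ‖q i - q j‖ ≤ L / 4 - ε i * ε j * (L / 2 - 2 * |y i - y j|) / 2 := by
    intro i j
    have a1 := hd i j
    have a2 := hd' i j
    have b1 := hx0 i
    have b2 := hx0 j
    have b3 := hxL i
    have b4 := hxL j
    simp only [y, ε]
    split_ifs with h1 h2 h2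
    · linarith
    · have h2' := not_lt.1 h2
      rw [abs_of_nonpos (by linarith : x i - x j ≤ 0)] at a1 a2
      rcases abs_cases (x i - (x j - L / 2)) with ⟨h3, _⟩ | ⟨h3, _⟩ <;> rw [h3] <;> linarith
    · have h1' := not_lt.1 h1
      rw [abs_of_nonneg (by linarith : 0 ≤ x i - x j)] at a1 a2
      rcases abs_cases (x i - L / 2 - x j) with ⟨h3, _⟩ | ⟨h3, _⟩ <;> rw [h3] <;> linarith
    · have : x i - L / 2 - (x j - L / 2) = x i - x j := by ring
      rw [this]
      linarith
  have e3 := kernel_nonneg (fun i => w i * ε i) y hy0 hyh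
  have e4 : ∑ i, ∑ j, w i * w j * ‖q i - q j‖ ≤
      ∑ i, ∑ j, w i * w j * (L / 4 - ε i * ε j * (L / 2 - 2 * |y i - y j|) / 2) :=
    Finset.sum_le_sum fun i _ => Finset.sum_le_sum fun j _ =>
      mul_le_mul_of_nonneg_left (hD i j) (mul_nonneg (hw i) (hw j))
  have e5 : ∑ i, ∑ j, w i * w j * (L / 4 - ε i * ε j * (L / 2 - 2 * |y i - y j|) / 2) =
      L / 4 - (∑ i, ∑ j, w i * ε i * (w j * ε j) * (L / 2 - 2 * |y i - y j|)) / 2 := by
    have a1 : ∀ i j, w i * w j * (L / 4 - ε i * ε j * (L / 2 - 2 * |y i - y j|) / 2) =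
        w i * w j * (L / 4) - (w i * ε i * (w j * ε j) * (L / 2 - 2 * |y i - y j|)) / 2 := by
      intro i j
      ring
    simp only [a1, Finset.sum_sub_distrib]
    congr 1
    · simp only [← Finset.sum_mul, ← Finset.mul_sum, hw1]
      ring
    · simp only [← Finset.sum_div]
  linarith

/-- Let `X` be a real normed space, and let `p₁, …, p_r` be unit vectors of `X` whose convex hull
contains `0`. Every closed polygon visiting the points in the cyclic order given by a permutation
`σ` (with the edges from `p (σ k)` to `p (σ (k + 1))`, indices modulo `r`) has length at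
least `4`. -/
theorem result : ∀ (X : Type*) [NormedAddCommGroup X] [NormedSpace ℝ X] (r : ℕ) (p : Fin r → X),
    2 ≤ r → (∀ i, ‖p i‖ = 1) → (0 : X) ∈ convexHull ℝ (range p) →
    ∀ σ : Equiv.Perm (Fin r), 4 ≤ ∑ k : Fin r, ‖p (σ (finRotate r k)) - p (σ k)‖ := by
  intro X _ _ r p hr hp h0 σ
  obtain ⟨n, rfl⟩ : ∃ n, r = n + 1 := ⟨r - 1, by omega⟩
  -- the weights
  have hK : (0 : X) ∈ {x : X | ∃ w : Fin (n + 1) → ℝ, (∀ i, 0 ≤ w i) ∧ ∑ i, w i = 1 ∧
      ∑ i, w i • p i = x} := by
    refine convexHull_min ?_ ?_ h0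
    · rintro _ ⟨i, rfl⟩
      refine ⟨Pi.single i 1, fun j => ?_, ?_, ?_⟩
      · by_cases h : j = i
        · subst h; simp
        · simp [h]
      · simp
      · simp [Pi.single_apply, ite_smul]
    · rintro x ⟨w, hw, hw1, rfl⟩ y ⟨v, hv, hv1, rfl⟩ a b ha hb hab
      refine ⟨fun i => a * w i + b * v i, fun i => ?_, ?_, ?_⟩
      · exact add_nonneg (mul_nonneg ha (hw i)) (mul_nonneg hb (hv i))
      · rw [Finset.sum_add_distrib, ← Finset.mul_sum, ← Finset.mul_sum, hw1, hv1]
        linarith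
      · simp only [add_smul, Finset.sum_add_distrib, mul_smul, ← Finset.smul_sum]
  obtain ⟨w, hw, hw1, hw0⟩ := hK
  -- the polygon as a sequence
  let Q : ℕ → X := fun k => p (σ (Fin.ofNat (n + 1) k))
  let x : ℕ → ℝ := fun k => ∑ j ∈ Finset.range k, ‖Q (j + 1) - Q j‖
  have hQ : ∀ k : Fin (n + 1), Q k = p (σ k) := by
    intro k
    simp only [Q]
    congr 2
    exact Fin.ext (Nat.mod_eq_of_lt k.isLt)
  have hQs : ∀ k : Fin (n + 1), Q (k + 1) = p (σ (finRotate (n + 1) k)) := by
    intro k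
    simp only [Q]
    congr 2
    rw [finRotate_succ_apply]
    apply Fin.ext
    simp [Fin.val_add]
  have hQn : Q (n + 1) = Q 0 := by
    simp only [Q]
    congr 2
    apply Fin.ext
    simp
  have hL : ∑ k : Fin (n + 1), ‖p (σ (finRotate (n + 1) k)) - p (σ k)‖ = x (n + 1) := by
    simp only [x]
    rw [Finset.sum_range]
    refine Finset.sum_congr rfl fun k _ => ?_
    rw [hQs k, hQ k]
  have hdx : ∀ m l : ℕ, m ≤ l → ‖Q m - Q l‖ ≤ x l - x m := by
    intro m l hml
    have h1 := dist_le_Ico_sum_dist Q hml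
    rw [dist_eq_norm] at h1
    refine h1.trans (le_of_eq ?_)
    simp only [x]
    rw [← Finset.sum_Ico_eq_sub _ hml]
    exact Finset.sum_congr rfl fun j _ => by rw [dist_comm, dist_eq_norm]
  have hx0 : x 0 = 0 := by simp [x]
  have hxm : ∀ m l : ℕ, m ≤ l → x m ≤ x l := fun m l h =>
    sub_nonneg.1 ((norm_nonneg _).trans (hdx m l h))
  rw [hL]
  have hbound : ∀ m l : ℕ, m ≤ l → l ≤ n + 1 →
      ‖Q m - Q l‖ ≤ |x m - x l| ∧ ‖Q m - Q l‖ ≤ x (n + 1) - |x m - x l| := by
    intro m l hml hl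
    rw [abs_of_nonpos (sub_nonpos.2 (hxm m l hml))]
    refine ⟨(hdx m l hml).trans (by linarith), ?_⟩
    have h1 := hdx 0 m (Nat.zero_le _)
    have h2 := hdx l (n + 1) hl
    rw [hQn] at h2
    have h3 : Q m - Q l = -(Q 0 - Q m) - (Q l - Q 0) := by abel
    have h4 : ‖Q m - Q l‖ ≤ ‖Q 0 - Q m‖ + ‖Q l - Q 0‖ := by
      rw [h3]
      refine (norm_sub_le _ _).trans ?_
      rw [norm_neg]
    linarith
  have hb2 : ∀ i j : Fin (n + 1), ‖p (σ i) - p (σ j)‖ ≤ |x i - x j| ∧
      ‖p (σ i) - p (σ j)‖ ≤ x (n + 1) - |x i - x j| := by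
    intro i j
    rw [← hQ i, ← hQ j]
    rcases le_total (i : ℕ) (j : ℕ) with h | h
    · exact hbound i j h j.isLt.le
    · have := hbound j i h i.isLt.le
      rwa [norm_sub_rev, abs_sub_comm] at this
  refine circle (fun i => p (σ i)) (fun i => w (σ i)) (fun i => x i) (x (n + 1)) (fun i => hp _)
    (fun i => hw _) ?_ ?_ (fun i => ?_) (fun i => hxm _ _ i.isLt.le) (fun i j => (hb2 i j).1)
    (fun i j => (hb2 i j).2)
  · rw [Equiv.sum_comp σ w]
    exact hw1
  · rw [Equiv.sum_comp σ (fun i => w i • p i)]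
    exact hw0
  · rw [← hx0]
    exact hxm _ _ (Nat.zero_le _)

end

end Pool.Agent.Results.MP_768819_an.ClosedPolygon
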